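import Mathlib
import Pool.Agent.MP_687188_co.Main

/-!
`M_k(n) = (1 + o(1)) n k` as `k → ∞`, for every fixed `n ≥ 1`.
-/

namespace Pool.Agent.Results.MP_687188_co.Asymptotic

open Finset Filter Topology Pool.Agent.MP_687188_co

/-- The family `A 0, …, A (k-1)` of finite subsets of `ℕ` packs into `[m] = {1, …, m}`:
there are integer shifts `s i` with `s i + A i ⊆ [m]` and the translates pairwise disjoint. -/
def PacksInto {k : ℕ} (A : Fin k → Finset ℕ) (m : ℕ) : Prop :=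
  ∃ s : Fin k → ℤ, (∀ i, ∀ a ∈ A i, 1 ≤ s i + (a : ℤ) ∧ s i + (a : ℤ) ≤ (m : ℤ)) ∧
    ∀ i j, i ≠ j → ∀ a ∈ A i, ∀ b ∈ A j, s i + (a : ℤ) ≠ s j + (b : ℤ)

/-- `B n d = {d, 2d, …, nd}`. -/
def B (n d : ℕ) : Finset ℕ := (Finset.Icc 1 n).image (fun i => i * d)

/-- `M k n` is the least `m` such that `B n 1, …, B n k` pack into `[m]`. -/
noncomputable def M (k n : ℕ) : ℕ := sInf {m : ℕ | PacksInto (fun i : Fin k => B n (i.val + 1)) m}

lemma packs_of_natPack {n k m : ℕ} (h : NatPack n (k + 1) m) :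
    PacksInto (fun i : Fin k => B n (i.val + 1)) m := by
  obtain ⟨s, h1, h2⟩ := h
  have hB : ∀ d a, a ∈ B n d → ∃ j < n, a = (j + 1) * d := by
    intro d a ha
    obtain ⟨i, hi, rfl⟩ := mem_image.1 ha
    rw [mem_Icc] at hi
    exact ⟨i - 1, by omega, by rw [Nat.sub_add_cancel hi.1]⟩
  refine ⟨fun i => (s (i.val + 1) : ℤ) + 1 - ((i.val + 1 : ℕ) : ℤ), ?_, ?_⟩
  · intro i a ha
    obtain ⟨j, hj, rfl⟩ := hB _ _ ha
    have h3 := h1 (i.val + 1) (by have := i.2; omega) j hj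
    have e : (s (i.val + 1) : ℤ) + 1 - ((i.val + 1 : ℕ) : ℤ) + (((j + 1) * (i.val + 1) : ℕ) : ℤ) =
        ((s (i.val + 1) + j * (i.val + 1) : ℕ) : ℤ) + 1 := by push_cast; ring
    simp only
    rw [e]
    omega
  · intro i i' hne a ha b hb he
    obtain ⟨j, hj, rfl⟩ := hB _ _ ha
    obtain ⟨j', hj', rfl⟩ := hB _ _ hb
    have e : (s (i.val + 1) : ℤ) + 1 - ((i.val + 1 : ℕ) : ℤ) + (((j + 1) * (i.val + 1) : ℕ) : ℤ) =
        ((s (i.val + 1) + j * (i.val + 1) : ℕ) : ℤ) + 1 := by push_cast; ring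
    have e' : (s (i'.val + 1) : ℤ) + 1 - ((i'.val + 1 : ℕ) : ℤ) +
        (((j' + 1) * (i'.val + 1) : ℕ) : ℤ) =
        ((s (i'.val + 1) + j' * (i'.val + 1) : ℕ) : ℤ) + 1 := by push_cast; ring
    simp only at he
    rw [e, e'] at he
    have h3 := h2 (i.val + 1) (by have := i.2; omega) (i'.val + 1) (by have := i'.2; omega)
      j hj j' hj' (by omega)
    exact hne (Fin.ext (by omega))

lemma lower {n k m : ℕ} (h : PacksInto (fun i : Fin k => B n (i.val + 1)) m) : n * k ≤ m := by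
  obtain ⟨s, h1, h2⟩ := h
  have hmem : ∀ (i : Fin k) (j : Fin n), (j.val + 1) * (i.val + 1) ∈ B n (i.val + 1) := by
    intro i j
    exact mem_image.2 ⟨j.val + 1, mem_Icc.2 ⟨by omega, by have := j.2; omega⟩, rfl⟩
  have hc := card_le_card_of_injOn (s := (univ : Finset (Fin n × Fin k))) (t := Icc (1 : ℤ) m)
    (fun x => s x.2 + (((x.1.val + 1) * (x.2.val + 1) : ℕ) : ℤ))
    (by
      intro x _
      have := h1 x.2 _ (hmem x.2 x.1)
      simpa using this)
    (by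
      rintro ⟨j, i⟩ _ ⟨j', i'⟩ _ he
      simp only at he
      by_cases hi : i = i'
      · subst hi
        have h3 : (j.val + 1) * (i.val + 1) = (j'.val + 1) * (i.val + 1) := by
          exact_mod_cast add_left_cancel he
        have h4 := Nat.eq_of_mul_eq_mul_right (Nat.succ_pos _) h3
        exact Prod.ext (Fin.ext (by simpa using h4)) rfl
      · exact absurd he (h2 i i' hi _ (hmem i j) _ (hmem i' j')))
  simpa using hc

theorem result (n : ℕ) (hn : 0 < n) :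
    Tendsto (fun k : ℕ => (M k n : ℝ) / ((n : ℝ) * (k : ℝ))) atTop (𝓝 1) := by
  have hn' : (0 : ℝ) < n := by exact_mod_cast hn
  rw [Metric.tendsto_atTop]
  intro ε hε
  obtain ⟨E, hE⟩ := exists_nat_gt (2 * (2 * n + 3) / ε)
  obtain ⟨c, hc⟩ := upper n (E + 1) (Nat.succ_pos E)
  obtain ⟨K, hK⟩ := exists_nat_gt (2 * (c : ℝ) / ε)
  refine ⟨K + 1, fun k hk => ?_⟩
  obtain ⟨m, hm1, hm2⟩ := hc k
  have hp := packs_of_natPack hm1
  have hle : M k n ≤ m := Nat.sInf_le hp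
  have hge : n * k ≤ M k n := lower (Nat.sInf_mem (s := {m : ℕ |
    PacksInto (fun i : Fin k => B n (i.val + 1)) m}) ⟨m, hp⟩)
  have hk0 : (0 : ℝ) < k := by exact_mod_cast (show 0 < k by omega)
  have hkK : (K : ℝ) < k := by exact_mod_cast (show K < k by omega)
  have hnk : (0 : ℝ) < (n : ℝ) * k := mul_pos hn' hk0
  have hge' : (n : ℝ) * k ≤ M k n := by exact_mod_cast hge
  have hle' : (M k n : ℝ) ≤ m := by exact_mod_cast hle
  have hm2' : ((E : ℝ) + 1 + 1) * m ≤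
      (n * ((E : ℝ) + 1 + 1) + (2 * n * n + 3 * n)) * k + c := by exact_mod_cast hm2
  have h1 : 1 ≤ (M k n : ℝ) / (n * k) := by rw [le_div_iff₀ hnk]; linarith
  rw [Real.dist_eq, abs_of_nonneg (by linarith), sub_lt_iff_lt_add, div_lt_iff₀ hnk]
  have hE0 : (0 : ℝ) ≤ E := Nat.cast_nonneg E
  have hc0 : (0 : ℝ) ≤ c := Nat.cast_nonneg c
  have hn1 : (1 : ℝ) ≤ n := by exact_mod_cast hn
  rw [div_lt_iff₀ hε] at hE hK
  have h2 : 2 * (c : ℝ) < ε * (n * k) := by
    have : (K : ℝ) * ε ≤ k * ε := by gcongr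
    have : (k : ℝ) * ε ≤ ε * (n * k) := by nlinarith [mul_pos hε hk0]
    linarith
  have h3 : 2 * ((2 * n * n + 3 * n) * (k : ℝ)) ≤ E * ε * (n * k) := by
    have := mul_le_mul_of_nonneg_right hE.le hnk.le
    linarith
  have h4 : ((E : ℝ) + 1 + 1) * m < (E + 1 + 1) * ((ε + 1) * (n * k)) := by
    have h5 : 0 ≤ E * ε * (n * k) := by positivity
    have h6 : 0 < ε * (n * k) := by positivity
    nlinarith
  have h7 : (m : ℝ) < (ε + 1) * (n * k) := lt_of_mul_lt_mul_left h4 (by positivity)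
  linarith

end Pool.Agent.Results.MP_687188_co.Asymptotic
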